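import Pool.Agent.Helper80.NHM.F.Equiv

/-!
# `n`-harmonic morphisms are quasiregular, up to a reflection

For `n ≥ 3`, every `n`-harmonic morphism `f : G → ℝⁿ` on a domain `G ⊆ ℝⁿ` (no assumption on the
orientation) is quasiregular, or `r ∘ f` is quasiregular for every reflection `r` of `ℝⁿ`.

All definitions (`IsAdmissible`, `IsHarmonic`, `IsMorphism`, `IsNHarmonicMorphism`,
`IsQuasiregular`, `IsReflection`) are in `Pool/Agent/Helper80/NHM/Decl.lean`.
-/

set_option autoImplicit false

namespace Pool.Agent.Results.MP_fecf7d_an.QuasiregularUpToReflection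

open Pool.Agent.Helper80.NHarm

theorem result : ∀ n : ℕ, 3 ≤ n → ∀ G : Set (Sp n), IsOpen G → IsConnected G →
    ∀ f : Sp n → Sp n, IsNHarmonicMorphism G f →
      IsQuasiregular G f ∨ ∀ r : Sp n → Sp n, IsReflection r → IsQuasiregular G (r ∘ f) :=
  fun _ hn _ hG hGc _ hf => main hn hG hGc hf

end Pool.Agent.Results.MP_fecf7d_an.QuasiregularUpToReflection
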